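import Pool.Agent.H45.RMW.Num

/-!
# RMW Gen: the general inequality

`R(3,k+j) ≥ R(3,k) + |G| + |A| + |B|` for large `k`, where `G` is triangle-free with independence number at most `j`, `A` induces a graph of
maximum degree at most one, no edge joins `B` to `A ∪ B`, and `(|A| + 1) k^(1+ε) ≤ (k - |B|)²`.
(The modules `Pool.Agent.H3.RJ.*` are by helper3; the idea to take one independent set for `B` is helper32's.)
-/

set_option autoImplicit false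

open Finset

open Pool.Agent.H41.RamseyStep Pool.Agent.H3.RJ

namespace Pool.Agent.H45.RMW

theorem gen (ε : ℝ) (hε : 0 < ε) : ∃ k₀ : ℕ, ∀ k : ℕ, k₀ ≤ k → ∀ m j : ℕ,
    ∀ G : SimpleGraph (Fin m), Good G (j + 1) → ∀ A B : Finset (Fin m), Disjoint A B →
      (∀ i ∈ A, ∀ l ∈ A, ∀ l' ∈ A, G.Adj i l → G.Adj i l' → l = l') →
      (∀ i ∈ B, ∀ l ∈ A ∪ B, ¬ G.Adj i l) → B.card ≤ k →
      ((A.card : ℝ) + 1) * (k : ℝ) ^ (1 + ε) ≤ ((k : ℝ) - B.card) ^ 2 →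
        R k + m + (A.card + B.card) ≤ R (k + j) := by
  obtain ⟨k₀, hk₀⟩ := num ε hε
  refine ⟨k₀, fun k hk m j G hG A B hAB hA hB hBk hnum => ?_⟩
  obtain ⟨h0, h1, h2, h3⟩ := hk₀ k hk A.card B.card hBk hnum
  refine step G hG A B hAB ?_ hB h0 h1 h2 h3
  intro i hi l hl l' hl' h h'
  have hiA : i ∈ A := (mem_union.1 hi).resolve_right fun hiB => hB i hiB l hl h
  have hlA : l ∈ A := (mem_union.1 hl).resolve_right fun hlB => hB l hlB i hi h.symm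
  have hl'A : l' ∈ A := (mem_union.1 hl').resolve_right fun hlB => hB l' hlB i hi h'.symm
  exact hA i hiA l hlA l' hl'A h h'

/-- If `j ≤ k - k^(1/2+ε)` then `R(3,j-1) + 4 k ≤ R(3,k)`. -/
theorem range_ok (ε : ℝ) (hε : 0 < ε) : ∃ k₀ : ℕ, ∀ k : ℕ, k₀ ≤ k → 1 ≤ k ∧ ∀ j : ℕ,
    (j : ℝ) ≤ (k : ℝ) - (k : ℝ) ^ (1 / 2 + ε) → R (j - 1) + 4 * k ≤ R k := by
  obtain ⟨k₁, hk₁⟩ := num ε hε
  obtain ⟨k₂, hk₂⟩ : ∃ k₂ : ℕ, ∀ k : ℕ, k₂ ≤ k → (2 : ℝ) ≤ (k : ℝ) ^ ε := by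
    have h := (tendsto_rpow_atTop hε).comp (tendsto_natCast_atTop_atTop (R := ℝ))
    exact Filter.eventually_atTop.1 (h.eventually (Filter.eventually_ge_atTop 2))
  refine ⟨max 1 (max k₁ k₂), fun k hk => ?_⟩
  have hk1' : 1 ≤ k := le_trans (le_max_left _ _) hk
  refine ⟨hk1', fun j hj => ?_⟩
  have hk1 : (0 : ℝ) < k := by exact_mod_cast hk1'
  have hkk₁ : k₁ ≤ k := le_trans (le_trans (le_max_left _ _) (le_max_right _ _)) hk
  have hkk₂ : k₂ ≤ k := le_trans (le_trans (le_max_right _ _) (le_max_right _ _)) hk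
  have hpos : 0 < (k : ℝ) ^ (1 / 2 + ε) := Real.rpow_pos_of_pos hk1 _
  have hjk : (j : ℝ) ≤ k := by linarith
  have hjk' : j ≤ k := by exact_mod_cast hjk
  have hj1 : ((j - 1 : ℕ) : ℝ) ≤ j := by exact_mod_cast Nat.sub_le j 1
  obtain ⟨-, -, -, h⟩ := hk₁ k hkk₁ 1 (j - 1) (by omega) (by
    have e1 : (k : ℝ) ^ (1 / 2 + ε) ≤ (k : ℝ) - ((j - 1 : ℕ) : ℝ) := by linarith
    calc (((1 : ℕ) : ℝ) + 1) * (k : ℝ) ^ (1 + ε) ≤ (k : ℝ) ^ ε * (k : ℝ) ^ (1 + ε) := by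
          apply mul_le_mul_of_nonneg_right _ (Real.rpow_nonneg hk1.le _)
          have := hk₂ k hkk₂
          push_cast
          linarith
      _ = ((k : ℝ) ^ (1 / 2 + ε)) ^ 2 := by
          rw [sq, ← Real.rpow_add hk1, ← Real.rpow_add hk1]; congr 1; ring
      _ ≤ ((k : ℝ) - ((j - 1 : ℕ) : ℝ)) ^ 2 := pow_le_pow_left₀ hpos.le e1 2)
  omega

end Pool.Agent.H45.RMW
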