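import Pool.Agent.H45.RMW.Sel2
import Pool.Agent.H3.RJ.Cst

/-!
# RMW Stp: one step of the wide construction

`H` extremal for `R(3,k)`, `G` good for `j + 1`, `A` and `B` disjoint sets of vertices of `G`, `A ∪ B` inducing a graph of maximum degree at
most one in which the vertices of `B` are isolated. The vertices of `A` get sites (`exists_sys2`), and the vertices of `B` get the vertices
of one independent set outside the blocked set of these sites.
-/

set_option autoImplicit false

open Finset

open Pool.Agent.H41.RamseyStep Pool.Agent.H3.RJ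

namespace Pool.Agent.H45.RMW

/-- A set of at least `R b` vertices contains an independent set of size at least `b`. -/
theorem exists_ind {V : Type*} [Fintype V] [DecidableEq V] {H : SimpleGraph V} {k b : ℕ}
    (hH : Good H k) (Z : Finset V) (hZ : R b + Z.card ≤ Fintype.card V) :
    ∃ s : Finset V, s.card = b ∧ Ind H s ∧ Disjoint s Z := by
  classical
  by_contra hno
  have hno' : ∀ s : Finset V, Ind H s → Disjoint s Z → s.card < b := by
    intro s hs hsZ
    by_contra hb
    push Not at hb
    obtain ⟨t, hts, htc⟩ := Finset.exists_subset_card_eq hb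
    exact hno ⟨t, htc, fun x hx y hy => hs x (hts hx) y (hts hy), Finset.disjoint_of_subset_left hts hsZ⟩
  have hg : Good (H.comap (Subtype.val : {x // x ∉ Z} → V)) b := by
    refine ⟨fun x y z h1 h2 h3 => hH.1 x y z h1 h2 h3, fun s hs => ?_⟩
    have h1 := hno' (s.map (Function.Embedding.subtype _)) (by
      intro x hx y hy
      rw [Finset.mem_map] at hx hy
      obtain ⟨x', hx', rfl⟩ := hx
      obtain ⟨y', hy', rfl⟩ := hy
      exact hs x' hx' y' hy') (by
      rw [Finset.disjoint_left]
      intro x hx
      rw [Finset.mem_map] at hx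
      obtain ⟨x', -, rfl⟩ := hx
      exact x'.2)
    rwa [Finset.card_map] at h1
  have h2 := hg.card_lt
  have h3 : Fintype.card {x // x ∉ Z} + Z.card = Fintype.card V := by
    rw [Fintype.card_subtype_compl, Fintype.card_coe]
    have := Finset.card_le_univ Z
    omega
  omega

theorem step {m j k : ℕ} (G : SimpleGraph (Fin m)) (hG : Good G (j + 1)) (A B : Finset (Fin m))
    (hAB : Disjoint A B) (hM : DegOne G (A ∪ B)) (hB : ∀ i ∈ B, ∀ l ∈ A ∪ B, ¬ G.Adj i l)
    (hk : 1 ≤ k) (h1 : 4 * (k + 1) * A.card < R k - 1)
    (h2 : 7 * (4 * (k + 1) * A.card) * k ^ 2 + (R k - 1) * (k + 10) <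
      (R k - 1 - 4 * (k + 1) * A.card) ^ 2)
    (h3 : R B.card + 4 * (k + 1) * A.card ≤ R k - 1) :
    R k + m + (A.card + B.card) ≤ R (k + j) := by
  classical
  have hRp : 0 < R k := R_pos (by omega)
  obtain ⟨H, hH⟩ := exists_good (k := k) (n := R k - 1) (by omega)
  have hT : TF H := hH.1
  have hD : ∀ v, (nb H v).card ≤ k := by
    intro v
    refine (hH.2 (nb H v) ?_).le
    intro x hx y hy hxy
    unfold nb at hx hy
    simp only [mem_filter, mem_univ, true_and] at hx hy
    exact hT v x y hx hxy hy
  obtain ⟨X, X', P, hS, -, Z, hZ, hPZ⟩ := exists_sys2 hT k hD (4 * (k + 1) * A.card)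
    (by simpa using h1) (by simpa using h2) G A
    (fun i hi l hl l' hl' => hM i (mem_union_left _ hi) l (mem_union_left _ hl) l'
      (mem_union_left _ hl')) univ (by simp)
  obtain ⟨s, hsc, hsI, hsZ⟩ := exists_ind (b := B.card) hH Z (by rw [Fintype.card_fin]; omega)
  obtain ⟨e⟩ : Nonempty ({x // x ∈ B} ≃ {x // x ∈ s}) := by
    rw [← Fintype.card_eq, Fintype.card_coe, Fintype.card_coe, hsc]
  have hn0 : 0 < R k - 1 := by omega
  let p : Fin m → Fin (R k - 1) := fun i => if h : i ∈ B then (e ⟨i, h⟩ : Fin (R k - 1)) else ⟨0, hn0⟩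
  have hps : ∀ i ∈ B, p i ∈ s := by
    intro i hi
    simp only [p, dif_pos hi]
    exact (e ⟨i, hi⟩).2
  have hpinj : ∀ i ∈ B, ∀ l ∈ B, p i = p l → i = l := by
    intro i hi l hl h
    simp only [p, dif_pos hi, dif_pos hl] at h
    have := e.injective (Subtype.ext h)
    simpa using this
  have hnA : ∀ i ∈ B, i ∉ A := fun i hi h => Finset.disjoint_left.1 hAB h hi
  have hsys : Sys H G (A ∪ B) (fun i => if i ∈ A then X i else {p i})
      (fun i => if i ∈ A then X' i else nb H (p i)) (fun i => if i ∈ A then P i else {p i}) := by
    refine ⟨?_, ?_, ?_⟩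
    · intro i hi
      try dsimp only
      by_cases h : i ∈ A
      · rw [if_pos h, if_pos h, if_pos h]
        exact hS.site i h
      · rw [if_neg h, if_neg h, if_neg h]
        exact site_vertex hT (p i)
    · intro i hi i' hi' hadj
      try dsimp only
      have hiA : i ∈ A := by
        rcases mem_union.1 hi with h | h
        · exact h
        · exact absurd hadj (hB i h i' hi')
      have hiA' : i' ∈ A := by
        rcases mem_union.1 hi' with h | h
        · exact h
        · exact absurd hadj.symm (hB i' h i hi)
      rw [if_pos hiA, if_pos hiA, if_pos hiA', if_pos hiA']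
      exact hS.disj i hiA i' hiA' hadj
    · intro i hi i' hi' hne hnadj
      try dsimp only
      by_cases h : i ∈ A
      · by_cases h' : i' ∈ A
        · rw [if_pos h, if_pos h']
          exact hS.anti i h i' h' hne hnadj
        · rw [if_pos h, if_neg h']
          have hi'B : i' ∈ B := by
            rcases mem_union.1 hi' with h'' | h''
            · exact absurd h'' h'
            · exact h''
          intro x hx y hy
          rw [mem_singleton] at hy
          subst hy
          exact hPZ i h x hx _ (Finset.disjoint_left.1 hsZ (hps i' hi'B))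
      · have hiB : i ∈ B := by
          rcases mem_union.1 hi with h'' | h''
          · exact absurd h'' h
          · exact h''
        by_cases h' : i' ∈ A
        · rw [if_neg h, if_pos h']
          intro x hx y hy
          rw [mem_singleton] at hx
          subst hx
          have h5 := hPZ i' h' y hy _ (Finset.disjoint_left.1 hsZ (hps i hiB))
          exact ⟨h5.1.symm, fun h => h5.2 h.symm⟩
        · rw [if_neg h, if_neg h']
          have hi'B : i' ∈ B := by
            rcases mem_union.1 hi' with h'' | h''
            · exact absurd h'' h'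
            · exact h''
          intro x hx y hy
          rw [mem_singleton] at hx hy
          subst hx
          subst hy
          exact ⟨fun h => hne (hpinj i hiB i' hi'B h), hsI _ (hps i hiB) _ (hps i' hi'B)⟩
  have h := con hH hG hsys
  rw [Fintype.card_fin, Fintype.card_fin, Finset.card_union_of_disjoint hAB] at h
  omega

/-- Disjoint union: `R(3,a) + R(3,b+1) ≤ R(3,a+b) + 1`. -/
theorem R_union {a : ℕ} (ha : 1 ≤ a) (b : ℕ) : R a + R (b + 1) ≤ R (a + b) + 1 := by
  classical
  have hRa : 0 < R a := R_pos (by omega)
  have hRb : 0 < R (b + 1) := R_pos (by omega)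
  obtain ⟨H, hH⟩ := exists_good (k := a) (n := R a - 1) (by omega)
  obtain ⟨G, hG⟩ := exists_good (k := b + 1) (n := R (b + 1) - 1) (by omega)
  have hsys : Sys H G ∅ (fun _ => ∅) (fun _ => ∅) (fun _ => ∅) :=
    ⟨fun i hi => absurd hi (notMem_empty i), fun i hi => absurd hi (notMem_empty i),
      fun i hi => absurd hi (notMem_empty i)⟩
  have h := con hH hG hsys
  rw [Fintype.card_fin, Fintype.card_fin, Finset.card_empty] at h
  omega

end Pool.Agent.H45.RMW
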