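import Pool.Agent.H45.RM.Gr2
import Pool.Agent.H45.RMW.Stp

/-!
# RMW Num: the numerical conditions of `step` for large `k`
-/

set_option autoImplicit false

open Pool.Agent.H41.RamseyStep Pool.Agent.H45.RM

namespace Pool.Agent.H45.RMW

private theorem ev_rpow (a : ℝ) (ha : 0 < a) (C : ℝ) :
    ∃ k₀ : ℕ, ∀ k : ℕ, k₀ ≤ k → C ≤ (k : ℝ) ^ a := by
  have h := (tendsto_rpow_atTop ha).comp (tendsto_natCast_atTop_atTop (R := ℝ))
  exact Filter.eventually_atTop.1 (h.eventually (Filter.eventually_ge_atTop C))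

private theorem key (ε : ℝ) (hε : 0 < ε) (D : ℝ) : ∃ k₀ : ℕ, ∀ k : ℕ, k₀ ≤ k → ∀ C : ℕ,
    (C : ℝ) ≤ D * (k : ℝ) ^ (1 - ε) → C * k ≤ R k - 1 ∧ C * k ^ 3 ≤ (R k - 1) ^ 2 := by
  obtain ⟨k₁, hk₁⟩ := growth (ε / 4) (by linarith)
  obtain ⟨k₂, hk₂⟩ := ev_rpow (ε / 2) (by linarith) D
  refine ⟨max 1 (max k₁ k₂), fun k hk C hC => ?_⟩
  have hk1' : 1 ≤ k := le_trans (le_max_left _ _) hk
  have hk1 : (0 : ℝ) < k := by exact_mod_cast hk1'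
  have hk1r : (1 : ℝ) ≤ k := by exact_mod_cast hk1'
  have h1 := hk₁ k (le_trans (le_trans (le_max_left _ _) (le_max_right _ _)) hk)
  have h2 := hk₂ k (le_trans (le_trans (le_max_right _ _) (le_max_right _ _)) hk)
  have hC2 : (C : ℝ) ≤ (k : ℝ) ^ (1 - ε / 2) := by
    have h3 : (k : ℝ) ^ (1 - ε / 2) = (k : ℝ) ^ (ε / 2) * (k : ℝ) ^ (1 - ε) := by
      rw [← Real.rpow_add hk1]; congr 1; ring
    rw [h3]
    exact le_trans hC (mul_le_mul_of_nonneg_right h2 (Real.rpow_nonneg hk1.le _))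
  constructor
  · have h4 : (C : ℝ) * k ≤ (k : ℝ) ^ (2 - ε / 2) := by
      have h5 : (k : ℝ) ^ (2 - ε / 2) = (k : ℝ) ^ (1 - ε / 2) * k := by
        have : (k : ℝ) ^ (1 - ε / 2) * k = (k : ℝ) ^ (1 - ε / 2) * (k : ℝ) ^ (1 : ℝ) := by
          rw [Real.rpow_one]
        rw [this, ← Real.rpow_add hk1]; congr 1; ring
      rw [h5]
      exact mul_le_mul_of_nonneg_right hC2 hk1.le
    have h6 : (k : ℝ) ^ (2 - ε / 2) ≤ (k : ℝ) ^ (2 - ε / 4) :=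
      Real.rpow_le_rpow_of_exponent_le hk1r (by linarith)
    have h7 : ((C * k : ℕ) : ℝ) ≤ ((R k - 1 : ℕ) : ℝ) := by
      push_cast [-Nat.cast_sub, -Nat.cast_pred]
      exact le_trans h4 (le_trans h6 h1)
    exact_mod_cast h7
  · have h4 : (C : ℝ) * (k : ℝ) ^ 3 ≤ ((k : ℝ) ^ (2 - ε / 4)) ^ 2 := by
      have h5 : ((k : ℝ) ^ (2 - ε / 4)) ^ 2 = (k : ℝ) ^ (1 - ε / 2) * (k : ℝ) ^ 3 := by
        have h51 : (k : ℝ) ^ 3 = (k : ℝ) ^ (3 : ℝ) := by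
          rw [← Real.rpow_natCast]; norm_num
        have h52 : ((k : ℝ) ^ (2 - ε / 4)) ^ 2 = (k : ℝ) ^ (2 - ε / 4) * (k : ℝ) ^ (2 - ε / 4) :=
          sq _
        rw [h51, h52, ← Real.rpow_add hk1, ← Real.rpow_add hk1]; congr 1; ring
      rw [h5]
      exact mul_le_mul_of_nonneg_right hC2 (by positivity)
    have h7 : ((C * k ^ 3 : ℕ) : ℝ) ≤ (((R k - 1) ^ 2 : ℕ) : ℝ) := by
      have h8 : ((k : ℝ) ^ (2 - ε / 4)) ^ 2 ≤ ((R k - 1 : ℕ) : ℝ) ^ 2 :=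
        pow_le_pow_left₀ (Real.rpow_nonneg hk1.le _) h1 _
      have h9 : (((R k - 1) ^ 2 : ℕ) : ℝ) = ((R k - 1 : ℕ) : ℝ) ^ 2 := Nat.cast_pow _ _
      have h10 : ((C * k ^ 3 : ℕ) : ℝ) = (C : ℝ) * (k : ℝ) ^ 3 := by
        rw [Nat.cast_mul, Nat.cast_pow]
      rw [h9, h10]
      exact le_trans h4 h8
    exact_mod_cast h7


private theorem R_zero : R 0 = 0 := by
  unfold R
  apply Nat.le_zero.1
  apply Nat.sInf_le
  intro G hG
  have := hG.2 ∅ (by simp)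
  simp at this

private theorem arith1 {n k a : ℕ} (h1 : 1000 * (a + 1) * k ≤ n) (h2 : 1000 * (a + 1) * k ^ 3 ≤ n ^ 2)
    (hk : 1 ≤ k) : 4 * (k + 1) * a < n ∧
      7 * (4 * (k + 1) * a) * k ^ 2 + n * (k + 10) < (n - 4 * (k + 1) * a) ^ 2 := by
  have e0 : 4 * (k + 1) * a ≤ 8 * (a * k) := by nlinarith
  have e1 : 1000 * (a * k) + 1000 * k ≤ n := by
    calc 1000 * (a * k) + 1000 * k = 1000 * (a + 1) * k := by ring
      _ ≤ n := h1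
  set B := 4 * (k + 1) * a with hB
  have hBn : 100 * B ≤ n := by omega
  have hn0 : 0 < n := by omega
  refine ⟨by omega, ?_⟩
  obtain ⟨d, hd⟩ : ∃ d, n = B + d := ⟨n - B, by omega⟩
  have hd' : n - B = d := by omega
  rw [hd']
  have e2 : 7 * B * k ^ 2 ≤ 56 * (a * k ^ 3) := by
    calc 7 * B * k ^ 2 ≤ 7 * (8 * (a * k)) * k ^ 2 := by gcongr
      _ = 56 * (a * k ^ 3) := by ring
  have e3 : 1000 * (a * k ^ 3) ≤ n ^ 2 := by
    calc 1000 * (a * k ^ 3) ≤ 1000 * (a + 1) * k ^ 3 := by nlinarith [Nat.zero_le (k ^ 3)]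
      _ ≤ n ^ 2 := h2
  have e4 : n * (k + 10) * 90 ≤ n ^ 2 := by
    calc n * (k + 10) * 90 = n * (90 * (k + 10)) := by ring
      _ ≤ n * n := by
        apply Nat.mul_le_mul_left
        omega
      _ = n ^ 2 := by ring
  have e5 : n ^ 2 ≤ 2 * d ^ 2 := by
    have : 99 * n ≤ 100 * d := by omega
    nlinarith
  have e6 : 0 < n ^ 2 := by positivity
  nlinarith

theorem num (ε : ℝ) (hε : 0 < ε) : ∃ k₀ : ℕ, ∀ k : ℕ, k₀ ≤ k → ∀ a b : ℕ, b ≤ k →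
    ((a : ℝ) + 1) * (k : ℝ) ^ (1 + ε) ≤ ((k : ℝ) - b) ^ 2 →
      1 ≤ k ∧ 4 * (k + 1) * a < R k - 1 ∧
      7 * (4 * (k + 1) * a) * k ^ 2 + (R k - 1) * (k + 10) < (R k - 1 - 4 * (k + 1) * a) ^ 2 ∧
      R b + 4 * (k + 1) * a ≤ R k - 1 := by
  obtain ⟨k₁, hk₁⟩ := key ε hε 1000
  obtain ⟨s₀, hs₀⟩ := growth (ε / 4) (by linarith)
  obtain ⟨k₂, hk₂⟩ := ev_rpow (3 * ε / 4) (by linarith) 9
  refine ⟨max (max 1 k₁) (max k₂ (s₀ ^ 2)), fun k hk a b hb hab => ?_⟩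
  have hk1' : 1 ≤ k := le_trans (le_trans (le_max_left _ _) (le_max_left _ _)) hk
  have hk1 : (0 : ℝ) < k := by exact_mod_cast hk1'
  have hk1r : (1 : ℝ) ≤ k := by exact_mod_cast hk1'
  have hkk₁ : k₁ ≤ k := le_trans (le_trans (le_max_right _ _) (le_max_left _ _)) hk
  have hkk₂ : k₂ ≤ k := le_trans (le_trans (le_max_left _ _) (le_max_right _ _)) hk
  have hks : s₀ ^ 2 ≤ k := le_trans (le_trans (le_max_right _ _) (le_max_right _ _)) hk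
  have hb' : (b : ℝ) ≤ k := by exact_mod_cast hb
  have hb0 : (0 : ℝ) ≤ b := Nat.cast_nonneg b
  have ha0 : (0 : ℝ) ≤ a := Nat.cast_nonneg a
  -- the number of matched vertices
  have hC : ((1000 * (a + 1) : ℕ) : ℝ) ≤ 1000 * (k : ℝ) ^ (1 - ε) := by
    have h1 : ((a : ℝ) + 1) * (k : ℝ) ^ (1 + ε) ≤ (k : ℝ) ^ (2 : ℝ) := by
      refine hab.trans ?_
      rw [Real.rpow_two]
      apply pow_le_pow_left₀ (by linarith) (by linarith)
    have h2 : (k : ℝ) ^ (2 : ℝ) = (k : ℝ) ^ (1 - ε) * (k : ℝ) ^ (1 + ε) := by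
      rw [← Real.rpow_add hk1]; congr 1; ring
    rw [h2] at h1
    have h3 : ((a : ℝ) + 1) ≤ (k : ℝ) ^ (1 - ε) :=
      le_of_mul_le_mul_right h1 (Real.rpow_pos_of_pos hk1 _)
    push_cast
    linarith
  obtain ⟨h1, h2⟩ := hk₁ k hkk₁ _ hC
  obtain ⟨h3, h4⟩ := arith1 h1 h2 hk1'
  refine ⟨hk1', h3, h4, ?_⟩
  rcases Nat.eq_zero_or_pos b with rfl | hbpos
  · rw [R_zero]
    omega
  · obtain ⟨b', rfl⟩ : ∃ b', b = b' + 1 := ⟨b - 1, by omega⟩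
    obtain ⟨s, hs⟩ : ∃ s, k = s + b' := ⟨k - b', by omega⟩
    have hs1 : 1 ≤ s := by omega
    have hun := R_union hs1 b'
    rw [← hs] at hun
    have hsr : (k : ℝ) - ((b' + 1 : ℕ) : ℝ) ≤ s := by
      rw [hs]; push_cast; linarith
    have hk0 : (0 : ℝ) ≤ (k : ℝ) - ((b' + 1 : ℕ) : ℝ) := by linarith
    have hs2 : ((a : ℝ) + 1) * (k : ℝ) ^ (1 + ε) ≤ (s : ℝ) ^ 2 :=
      hab.trans (pow_le_pow_left₀ hk0 hsr 2)
    have hsk : (s : ℝ) ≤ k := by exact_mod_cast (by omega : s ≤ k)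
    have hspos : (0 : ℝ) < s := by exact_mod_cast hs1
    have hs3 : s₀ ≤ s := by
      have h5 : (k : ℝ) ≤ (s : ℝ) ^ 2 := by
        refine le_trans ?_ hs2
        have h6 : (k : ℝ) ≤ (k : ℝ) ^ (1 + ε) := by
          have := Real.rpow_le_rpow_of_exponent_le hk1r (show (1 : ℝ) ≤ 1 + ε by linarith)
          rwa [Real.rpow_one] at this
        have h7 : 0 ≤ (k : ℝ) ^ (1 + ε) := Real.rpow_nonneg hk1.le _
        nlinarith
      have h8 : k ≤ s ^ 2 := by exact_mod_cast h5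
      have h9 : s₀ ^ 2 ≤ s ^ 2 := hks.trans h8
      exact (Nat.pow_le_pow_iff_left (by norm_num)).1 h9
    have hgr := hs₀ s hs3
    have h10 : 9 * (((a : ℝ) + 1) * k) ≤ (s : ℝ) ^ (2 - ε / 4) := by
      have h11 : (s : ℝ) ^ (2 - ε / 4) = (s : ℝ) ^ 2 * (s : ℝ) ^ (-(ε / 4)) := by
        rw [← Real.rpow_two, ← Real.rpow_add hspos]; congr 1
      have h12 : (k : ℝ) ^ (-(ε / 4)) ≤ (s : ℝ) ^ (-(ε / 4)) :=
        Real.rpow_le_rpow_of_nonpos hspos hsk (by linarith)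
      rw [h11]
      calc 9 * (((a : ℝ) + 1) * k) ≤ (k : ℝ) ^ (3 * ε / 4) * (((a : ℝ) + 1) * k) := by
            apply mul_le_mul_of_nonneg_right (hk₂ k hkk₂) (by positivity)
        _ = (((a : ℝ) + 1) * (k : ℝ) ^ (1 + ε)) * (k : ℝ) ^ (-(ε / 4)) := by
            have h13 : (k : ℝ) ^ (1 + ε) * (k : ℝ) ^ (-(ε / 4)) = (k : ℝ) ^ (3 * ε / 4) * k := by
              have : (k : ℝ) ^ (3 * ε / 4) * k = (k : ℝ) ^ (3 * ε / 4) * (k : ℝ) ^ (1 : ℝ) := by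
                rw [Real.rpow_one]
              rw [this, ← Real.rpow_add hk1, ← Real.rpow_add hk1]; congr 1; ring
            linear_combination (-((a : ℝ) + 1)) * h13
        _ ≤ (s : ℝ) ^ 2 * (s : ℝ) ^ (-(ε / 4)) := by
            apply mul_le_mul hs2 h12 (Real.rpow_nonneg hk1.le _) (by positivity)
    have h14 : ((9 * ((a + 1) * k) : ℕ) : ℝ) ≤ ((R s - 1 : ℕ) : ℝ) := by
      refine le_trans ?_ hgr
      push_cast
      exact h10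
    have h15 : 9 * ((a + 1) * k) ≤ R s - 1 := by exact_mod_cast h14
    have h16 : 4 * (k + 1) * a + 2 ≤ R s := by
      have : 4 * (k + 1) * a + 1 ≤ 9 * ((a + 1) * k) := by nlinarith
      omega
    omega

end Pool.Agent.H45.RMW
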