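import Pool.Agent.H3.RJ.Gad

/-!
# RMW Sel2: choice of the sites for all of `F`, with a small blocked set

This is `Pool.Agent.H3.RJ.exists_sys` (module Sel, by helper3) with one more conclusion: at most
`4 (D + 1) |F|` vertices are equal or adjacent to a vertex of a support.

Induction on `F.card`: if some `i ∈ F` has a neighbour `i' ∈ F`, take a gadget with supports in `U` for `i, i'` and go on with `F \ {i, i'}` and
`U' = U \ N[P ∪ Q]` (at most `4 (D + 1)` vertices are removed); otherwise take any vertex `h ∈ U` for `i` (`site_vertex`) and go on with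
`F \ {i}`, `U' = U \ N[h]`.  All supports of the later sites lie in `U'`, so they are anticomplete to the earlier ones.
The numerical condition of `exists_gadget` holds as long as `|Uᶜ| ≤ B`.
-/

set_option autoImplicit false

open Finset

open Pool.Agent.H41.RamseyStep Pool.Agent.H3.RJ

namespace Pool.Agent.H45.RMW

private noncomputable def clo {V : Type*} [Fintype V] [DecidableEq V] (H : SimpleGraph V) (S : Finset V) :
    Finset V := S ∪ S.biUnion (nb H)

private theorem card_clo {V : Type*} [Fintype V] [DecidableEq V] {H : SimpleGraph V} {D : ℕ}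
    (hD : ∀ v, (nb H v).card ≤ D) (S : Finset V) (hS : S.card ≤ 4) :
    (clo H S).card ≤ 4 * (D + 1) := by
  have h1 : (S.biUnion (nb H)).card ≤ S.card * D :=
    Finset.card_biUnion_le_card_mul _ _ _ (fun v _ => hD v)
  have h2 : (clo H S).card ≤ S.card + (S.biUnion (nb H)).card := Finset.card_union_le _ _
  have h3 : S.card * (D + 1) ≤ 4 * (D + 1) := Nat.mul_le_mul_right _ hS
  rw [Nat.mul_succ] at h3
  omega

private theorem not_clo {V : Type*} [Fintype V] [DecidableEq V] {H : SimpleGraph V}
    {S : Finset V} {x y : V} (hx : x ∈ S) (hy : y ∉ clo H S) : x ≠ y ∧ ¬ H.Adj x y := by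
  unfold clo at hy
  rw [Finset.mem_union, not_or] at hy
  refine ⟨?_, ?_⟩
  · rintro rfl
    exact hy.1 hx
  · intro h
    apply hy.2
    rw [Finset.mem_biUnion]
    refine ⟨x, hx, ?_⟩
    classical
    unfold nb
    simpa using h

private theorem card_compl_step {V : Type*} [Fintype V] [DecidableEq V] {H : SimpleGraph V}
    {D : ℕ} (hD : ∀ v, (nb H v).card ≤ D) (U S : Finset V) (hS : S.card ≤ 4) :
    ((U \ clo H S)ᶜ).card ≤ (Uᶜ).card + 4 * (D + 1) := by
  have h1 : (U \ clo H S)ᶜ ⊆ Uᶜ ∪ clo H S := by
    intro x hx
    rw [Finset.mem_compl, Finset.mem_sdiff, not_and_or, not_not] at hx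
    rw [Finset.mem_union, Finset.mem_compl]
    exact hx
  have h2 := Finset.card_le_card h1
  have h3 := Finset.card_union_le (Uᶜ) (clo H S)
  have h4 := card_clo hD S hS
  omega

theorem exists_sys2 {V W : Type*} [Fintype V] [DecidableEq V] [DecidableEq W] {H : SimpleGraph V} (hT : TF H) (D : ℕ)
    (hD : ∀ v, (nb H v).card ≤ D) (B : ℕ) (hB : B < Fintype.card V)
    (hn : 7 * B * D ^ 2 + Fintype.card V * (D + 10) < (Fintype.card V - B) ^ 2) (G : SimpleGraph W)
    (F : Finset W) (hF : DegOne G F) (U : Finset V) (hU : (Uᶜ).card + 4 * (D + 1) * F.card ≤ B) :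
    ∃ X X' P : W → Finset V, Sys H G F X X' P ∧ (∀ i ∈ F, P i ⊆ U) ∧
      ∃ Z : Finset V, Z.card ≤ 4 * (D + 1) * F.card ∧
        ∀ i ∈ F, ∀ x ∈ P i, ∀ y, y ∉ Z → x ≠ y ∧ ¬ H.Adj x y := by
  induction hm : F.card using Nat.strong_induction_on generalizing F U with
  | _ m ih =>
  subst hm
  have hUc : U.card + (Uᶜ).card = Fintype.card V := Finset.card_add_card_compl U
  rcases F.eq_empty_or_nonempty with hF0 | ⟨i, hi⟩
  · subst hF0
    refine ⟨fun _ => ∅, fun _ => ∅, fun _ => ∅, ⟨?_, ?_, ?_⟩, ?_, ∅, by simp, ?_⟩
    · intro j hj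
      exact absurd hj (Finset.notMem_empty j)
    · intro j hj
      exact absurd hj (Finset.notMem_empty j)
    · intro j hj
      exact absurd hj (Finset.notMem_empty j)
    · intro j hj
      exact absurd hj (Finset.notMem_empty j)
    · intro j hj
      exact absurd hj (Finset.notMem_empty j)
  by_cases hnb : ∃ i' ∈ F, G.Adj i i'
  · obtain ⟨i', hi', hadj⟩ := hnb
    have hne : i ≠ i' := hadj.ne
    have hle : (Uᶜ).card ≤ B := by omega
    have hUU : 7 * (Uᶜ).card * D ^ 2 + U.card * (D + 10) < U.card ^ 2 := by
      have e1 : 7 * (Uᶜ).card * D ^ 2 ≤ 7 * B * D ^ 2 :=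
        Nat.mul_le_mul_right _ (Nat.mul_le_mul_left _ hle)
      have e2 : U.card * (D + 10) ≤ Fintype.card V * (D + 10) :=
        Nat.mul_le_mul_right _ (by omega)
      have e3 : (Fintype.card V - B) ^ 2 ≤ U.card ^ 2 := Nat.pow_le_pow_left (by omega) 2
      omega
    obtain ⟨Xg, Xg', Pg, Yg, Yg', Qg, hg, hP, hQ⟩ := exists_gadget hT D hD U hUU
    have hcF : ((F.erase i).erase i').card + 2 = F.card := by
      have h1 : i' ∈ F.erase i := Finset.mem_erase.2 ⟨hne.symm, hi'⟩
      have h2 := Finset.card_erase_add_one h1
      have h3 := Finset.card_erase_add_one hi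
      omega
    have hsub : ∀ j ∈ (F.erase i).erase i', j ∈ F := fun j hj =>
      Finset.mem_of_mem_erase (Finset.mem_of_mem_erase hj)
    obtain ⟨X0, X0', P0, h0, hP0, Z0, hZ0, hPZ0⟩ := ih ((F.erase i).erase i').card (by omega)
      ((F.erase i).erase i') (fun j hj k hk l hl => hF j (hsub j hj) k (hsub k hk) l (hsub l hl))
      (U \ clo H (Pg ∪ Qg)) (by
        have h1 := card_compl_step hD U (Pg ∪ Qg) hg.card_le
        have h2 : 4 * (D + 1) * F.card =
            4 * (D + 1) * ((F.erase i).erase i').card + 4 * (D + 1) + 4 * (D + 1) := by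
          rw [← hcF]; ring
        omega) rfl
    have hmem : ∀ j ∈ F, j ≠ i → j ≠ i' → j ∈ (F.erase i).erase i' := fun j hj h1 h2 =>
      Finset.mem_erase.2 ⟨h2, Finset.mem_erase.2 ⟨h1, hj⟩⟩
    have hfar : ∀ j ∈ (F.erase i).erase i', ∀ x ∈ Pg ∪ Qg, ∀ y ∈ P0 j, x ≠ y ∧ ¬ H.Adj x y := by
      intro j hj x hx y hy
      exact not_clo hx (Finset.mem_sdiff.1 (hP0 j hj hy)).2
    refine ⟨fun k => if k = i then Xg else if k = i' then Yg else X0 k,
      fun k => if k = i then Xg' else if k = i' then Yg' else X0' k,
      fun k => if k = i then Pg else if k = i' then Qg else P0 k, ⟨?_, ?_, ?_⟩, ?_,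
      Z0 ∪ clo H (Pg ∪ Qg), ?_, ?_⟩
    · intro k hk
      try dsimp only
      by_cases h1 : k = i
      · rw [if_pos h1, if_pos h1, if_pos h1]; exact hg.siteX
      · by_cases h2 : k = i'
        · rw [if_neg h1, if_neg h1, if_neg h1, if_pos h2, if_pos h2, if_pos h2]
          exact hg.siteY
        · rw [if_neg h1, if_neg h1, if_neg h1, if_neg h2, if_neg h2, if_neg h2]
          exact h0.site k (hmem k hk h1 h2)
    · intro k hk l hl hkl
      try dsimp only
      by_cases h1 : k = i
      · subst h1
        have h2 : l = i' := hF k hk l hl i' hi' hkl hadj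
        subst h2
        rw [if_pos rfl, if_pos rfl, if_neg hne.symm, if_neg hne.symm, if_pos rfl, if_pos rfl]
        exact hg.disj
      · by_cases h2 : k = i'
        · subst h2
          have h3 : l = i := hF k hk l hl i hi hkl hadj.symm
          subst h3
          rw [if_pos rfl, if_pos rfl, if_neg hne.symm, if_neg hne.symm, if_pos rfl, if_pos rfl]
          exact hg.disj.symm
        · have h3 : l ≠ i := by
            rintro rfl
            exact h2 (hF l hl k hk i' hi' hkl.symm hadj)
          have h4 : l ≠ i' := by
            rintro rfl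
            exact h1 (hF l hl k hk i hi hkl.symm hadj.symm)
          rw [if_neg h1, if_neg h1, if_neg h2, if_neg h2, if_neg h3, if_neg h3, if_neg h4,
            if_neg h4]
          exact h0.disj k (hmem k hk h1 h2) l (hmem l hl h3 h4) hkl
    · intro k hk l hl hkl hnadj
      try dsimp only
      by_cases h1 : k = i
      · subst h1
        have h2 : l ≠ i' := by
          rintro rfl
          exact hnadj hadj
        rw [if_pos rfl, if_neg hkl.symm, if_neg h2]
        intro x hx y hy
        exact hfar l (hmem l hl hkl.symm h2) x (Finset.mem_union_left _ hx) y hy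
      · by_cases h2 : k = i'
        · subst h2
          have h3 : l ≠ i := by
            rintro rfl
            exact hnadj hadj.symm
          rw [if_neg h1, if_pos rfl, if_neg h3, if_neg hkl.symm]
          intro x hx y hy
          exact hfar l (hmem l hl h3 hkl.symm) x (Finset.mem_union_right _ hx) y hy
        · rw [if_neg h1, if_neg h2]
          by_cases h3 : l = i
          · subst h3
            rw [if_pos rfl]
            intro x hx y hy
            have h5 := hfar k (hmem k hk h1 h2) y (Finset.mem_union_left _ hy) x hx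
            exact ⟨h5.1.symm, fun h => h5.2 h.symm⟩
          · by_cases h4 : l = i'
            · subst h4
              rw [if_neg h3, if_pos rfl]
              intro x hx y hy
              have h5 := hfar k (hmem k hk h1 h2) y (Finset.mem_union_right _ hy) x hx
              exact ⟨h5.1.symm, fun h => h5.2 h.symm⟩
            · rw [if_neg h3, if_neg h4]
              exact h0.anti k (hmem k hk h1 h2) l (hmem l hl h3 h4) hkl hnadj
    · intro k hk
      try dsimp only
      by_cases h1 : k = i
      · rw [if_pos h1]; exact hP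
      · by_cases h2 : k = i'
        · rw [if_neg h1, if_pos h2]; exact hQ
        · rw [if_neg h1, if_neg h2]
          exact (hP0 k (hmem k hk h1 h2)).trans Finset.sdiff_subset
    · have e1 := Finset.card_union_le Z0 (clo H (Pg ∪ Qg))
      have e2 := card_clo hD (Pg ∪ Qg) hg.card_le
      have e3 : 4 * (D + 1) * F.card =
          4 * (D + 1) * ((F.erase i).erase i').card + 4 * (D + 1) + 4 * (D + 1) := by
        rw [← hcF]; ring
      omega
    · intro k hk x hx y hy
      rw [Finset.mem_union, not_or] at hy
      try dsimp only at hx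
      by_cases h1 : k = i
      · rw [if_pos h1] at hx
        exact not_clo (Finset.mem_union_left _ hx) hy.2
      · by_cases h2 : k = i'
        · rw [if_neg h1, if_pos h2] at hx
          exact not_clo (Finset.mem_union_right _ hx) hy.2
        · rw [if_neg h1, if_neg h2] at hx
          exact hPZ0 k (hmem k hk h1 h2) x hx y hy.1
  · push Not at hnb
    have hUpos : 0 < U.card := by omega
    obtain ⟨h, hh⟩ := Finset.card_pos.1 hUpos
    have hcF : (F.erase i).card + 1 = F.card := Finset.card_erase_add_one hi
    have hsub : ∀ j ∈ F.erase i, j ∈ F := fun j hj => Finset.mem_of_mem_erase hj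
    obtain ⟨X0, X0', P0, h0, hP0, Z0, hZ0, hPZ0⟩ := ih (F.erase i).card (by omega)
      (F.erase i) (fun j hj k hk l hl => hF j (hsub j hj) k (hsub k hk) l (hsub l hl))
      (U \ clo H {h}) (by
        have h1 := card_compl_step hD U {h} (by rw [Finset.card_singleton]; omega)
        have h2 : 4 * (D + 1) * F.card = 4 * (D + 1) * (F.erase i).card + 4 * (D + 1) := by
          rw [← hcF]; ring
        omega) rfl
    have hmem : ∀ j ∈ F, j ≠ i → j ∈ F.erase i := fun j hj h1 => Finset.mem_erase.2 ⟨h1, hj⟩
    have hfar : ∀ j ∈ F.erase i, ∀ y ∈ P0 j, h ≠ y ∧ ¬ H.Adj h y := by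
      intro j hj y hy
      exact not_clo (Finset.mem_singleton_self h) (Finset.mem_sdiff.1 (hP0 j hj hy)).2
    refine ⟨fun k => if k = i then {h} else X0 k, fun k => if k = i then nb H h else X0' k,
      fun k => if k = i then {h} else P0 k, ⟨?_, ?_, ?_⟩, ?_, Z0 ∪ clo H {h}, ?_, ?_⟩
    · intro k hk
      try dsimp only
      by_cases h1 : k = i
      · rw [if_pos h1, if_pos h1, if_pos h1]; exact site_vertex hT h
      · rw [if_neg h1, if_neg h1, if_neg h1]
        exact h0.site k (hmem k hk h1)
    · intro k hk l hl hkl
      try dsimp only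
      have h1 : k ≠ i := by
        rintro rfl
        exact hnb l hl hkl
      have h2 : l ≠ i := by
        rintro rfl
        exact hnb k hk hkl.symm
      rw [if_neg h1, if_neg h1, if_neg h2, if_neg h2]
      exact h0.disj k (hmem k hk h1) l (hmem l hl h2) hkl
    · intro k hk l hl hkl hnadj
      try dsimp only
      by_cases h1 : k = i
      · subst h1
        rw [if_pos rfl, if_neg hkl.symm]
        intro x hx y hy
        rw [Finset.mem_singleton] at hx
        subst hx
        exact hfar l (hmem l hl hkl.symm) y hy
      · rw [if_neg h1]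
        by_cases h2 : l = i
        · subst h2
          rw [if_pos rfl]
          intro x hx y hy
          rw [Finset.mem_singleton] at hy
          subst hy
          have h5 := hfar k (hmem k hk h1) x hx
          exact ⟨h5.1.symm, fun h => h5.2 h.symm⟩
        · rw [if_neg h2]
          exact h0.anti k (hmem k hk h1) l (hmem l hl h2) hkl hnadj
    · intro k hk
      try dsimp only
      by_cases h1 : k = i
      · rw [if_pos h1]
        exact Finset.singleton_subset_iff.2 hh
      · rw [if_neg h1]
        exact (hP0 k (hmem k hk h1)).trans Finset.sdiff_subset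
    · have e1 := Finset.card_union_le Z0 (clo H {h})
      have e2 := card_clo hD {h} (by rw [Finset.card_singleton]; omega)
      have e3 : 4 * (D + 1) * F.card = 4 * (D + 1) * (F.erase i).card + 4 * (D + 1) := by
        rw [← hcF]; ring
      omega
    · intro k hk x hx y hy
      rw [Finset.mem_union, not_or] at hy
      try dsimp only at hx
      by_cases h1 : k = i
      · rw [if_pos h1] at hx
        exact not_clo hx hy.2
      · rw [if_neg h1] at hx
        exact hPZ0 k (hmem k hk h1) x hx y hy.1

end Pool.Agent.H45.RMW
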